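import Pool.Agent.H73.GWQ.Stmts

/-! Row B5Q of the board gwq: separation of different words of the same length. -/

set_option autoImplicit false

open Classical

namespace GWQ

namespace B5

theorem prw_cons {G : Type*} [Group G] (a b : G) (y : Bool) (l : List Bool) :
    GWT.prw a b (y :: l) = (if y then b else a) * GWT.prw a b l := by simp [GWT.prw]

theorem prw_append {G : Type*} [Group G] (a b : G) (l l' : List Bool) :
    GWT.prw a b (l ++ l') = GWT.prw a b l * GWT.prw a b l' := by simp [GWT.prw]

theorem split : ∀ l l' : List Bool, l.length = l'.length → l ≠ l' →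
    ∃ (u : List Bool) (x : Bool) (l1 l2 : List Bool), l = u ++ x :: l1 ∧ l' = u ++ (!x) :: l2 := by
  intro l
  induction l with
  | nil =>
    intro l' h1 h2
    rw [List.length_nil] at h1
    exact absurd (List.length_eq_zero_iff.1 h1.symm).symm h2
  | cons x l ih =>
    intro l' h1 h2
    rcases l' with _ | ⟨y, l'⟩
    · simp at h1
    · by_cases hxy : y = x
      · subst hxy
        have h3 : l ≠ l' := fun h => h2 (by rw [h])
        obtain ⟨u, z, l1, l2, e1, e2⟩ := ih l' (by simpa using h1) h3
        exact ⟨y :: u, z, l1, l2, by rw [e1, List.cons_append], by rw [e2, List.cons_append]⟩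
      · have hy : y = !x := by
          cases x <;> cases y <;> simp_all
        exact ⟨[], x, l, l', rfl, by rw [hy]; rfl⟩

end B5

open B5 in
theorem B5Q {G V : Type*} [Group G] (D : QM G V) (h3 : B3QStmt D) (h4 : B4QStmt D) :
    B5QStmt D := by
  intro a b k hP l l' hlen hne
  obtain ⟨u, x, l1, l2, rfl, rfl⟩ := split l l' hlen hne
  have e1 := h4 a b k hP x l1 l2
  have e2 := h3 a b k hP u ((!x) :: l2)
  have e3 := h3 a b k hP [!x] l2
  have e4 : D.nm (GWT.prw a b (u ++ x :: l1)) ≤
      D.nm (GWT.prw a b u) + D.nm (GWT.prw a b (x :: l1)) := by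
    rw [prw_append]
    have t1 := D.tri 1 (GWT.prw a b u) (GWT.prw a b u * GWT.prw a b (x :: l1))
    have t2 := D.inv (GWT.prw a b u) 1 (GWT.prw a b (x :: l1))
    rw [mul_one] at t2
    unfold QM.nm
    omega
  have e5 : D.d (GWT.prw a b (u ++ x :: l1)) (GWT.prw a b (u ++ (!x) :: l2)) =
      D.d (GWT.prw a b (x :: l1)) (GWT.prw a b ((!x) :: l2)) := by
    rw [prw_append, prw_append, D.inv]
  have e6 : 1000 * k ≤ D.nm (GWT.prw a b [!x]) := by
    have h5 : GWT.prw a b [!x] = if (!x) then b else a := by simp [GWT.prw]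
    rw [h5]
    refine hP.long _ ?_
    cases x <;> simp
  have e7 : ([!x] : List Bool) ++ l2 = (!x) :: l2 := rfl
  rw [e7] at e3
  have hk := hP.k_pos
  omega

end GWQ
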